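import Pool.Agent.MP_3ee8cb_gt.D3SC.Sc

/-! The conjugacy read in frames. -/

namespace Pool.Agent.MP_3ee8cb_gt.D3

open Set Filter Topology
open CR (Met UT Riem Deck RP dd ng tm FdP MinP)
open scoped RealInnerProductSpace

noncomputable section

namespace SC

/-- The frame components of `r` times a unit vector. -/
def dn {g : Met 3} (m : MF) (r : ℝ) (p : UT g) : V × V := (p.1.1, r • m.S p.1.1 p.1.2)

variable {g h : Met 3} {m m' : MF}

/-- The frame is orthonormal for `g`. -/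
def Ort (g : Met 3) (m : MF) : Prop := ∀ y a b, g y (m.R y a) (m.R y b) = ⟪a, b⟫

theorem norm_S (hm : m.OK) (ho : Ort g m) (p : UT g) : ‖m.S p.1.1 p.1.2‖ = 1 := by
  have := ho p.1.1 (m.S p.1.1 p.1.2) (m.S p.1.1 p.1.2)
  rw [hm.RS, p.2, real_inner_self_eq_norm_sq] at this
  exact (pow_eq_one_iff_of_nonneg (norm_nonneg _) two_ne_zero).1 this.symm

theorem norm_dn (hm : m.OK) (ho : Ort g m) (r : ℝ) (p : UT g) : ‖(dn m r p).2‖ = |r| := by
  rw [dn, norm_smul, norm_S hm ho, mul_one, Real.norm_eq_abs]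

/-- The direction of a vector given in the frame. -/
def nu (m : MF) (z : V × V) : V × V := (z.1, m.R z.1 (‖z.2‖⁻¹ • z.2))

theorem nu_mem (ho : Ort g m) {z : V × V} (hz : z.2 ≠ 0) :
    g (nu m z).1 (nu m z).2 (nu m z).2 = 1 := by
  rw [nu, ho, real_inner_self_eq_norm_sq, norm_smul, norm_inv, norm_norm,
    inv_mul_cancel₀ (norm_ne_zero_iff.2 hz), one_pow]

theorem nu_cd (hm : m.OK) {z : V × V} (hz : z.2 ≠ 0) : ContDiffAt ℝ 1 (nu m) z :=
  contDiffAt_fst.prodMk ((((hm.cR.of_le one_le_two).comp contDiff_fst).contDiffAt).clm_apply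
    (((contDiffAt_snd.norm ℝ hz).inv (norm_ne_zero_iff.2 hz)).smul contDiffAt_snd))

theorem dn_nu (hm : m.OK) (ho : Ort g m) {z : V × V} (hz : z.2 ≠ 0) :
    dn m ‖z.2‖ (⟨nu m z, nu_mem ho hz⟩ : UT g) = z := by
  simp only [dn, nu, hm.SR, smul_smul, mul_inv_cancel₀ (norm_ne_zero_iff.2 hz), one_smul]

theorem exists_dn (hm : m.OK) (ho : Ort g m) {z : V × V} (hz : z.2 ≠ 0) :
    ∃ p : UT g, z = dn m ‖z.2‖ p := ⟨_, (dn_nu hm ho hz).symm⟩

theorem nu_dn (hm : m.OK) (ho : Ort g m) {r : ℝ} (hr : 0 < r) (p : UT g) :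
    nu m (dn m r p) = p.1 := by
  rw [nu, norm_dn hm ho, abs_of_pos hr]
  simp only [dn, smul_smul, inv_mul_cancel₀ hr.ne', one_smul, hm.RS]

theorem dn_ne (hm : m.OK) (ho : Ort g m) {r : ℝ} (hr : r ≠ 0) (p : UT g) : (dn m r p).2 ≠ 0 :=
  norm_ne_zero_iff.1 (by rw [norm_dn hm ho]; exact abs_ne_zero.2 hr)

theorem dn_ng (r : ℝ) (p : UT g) : dn m (-r) (ng p) = dn m r p := by
  simp [dn, ng]

theorem exists_ext (hm : m.OK) (ho : Ort g m) (hm' : m'.OK) {F : UT g → UT h} (hF : C1L F) :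
    ∃ φ : V × V → V × V, ContDiffOn ℝ 1 φ {z | z.2 ≠ 0} ∧
      ∀ r p, 0 < r → φ (dn m r p) = dn m' r (F p) := by
  classical
  refine ⟨fun z => if hz : z.2 ≠ 0 then dn m' ‖z.2‖ (F ⟨nu m z, nu_mem ho hz⟩) else 0,
    fun z hz => ContDiffAt.contDiffWithinAt ?_, fun r p hr => ?_⟩
  · obtain ⟨G, h1, h2⟩ := hF ⟨nu m z, nu_mem ho hz⟩
    have hev : ∀ᶠ w in 𝓝 z, w.2 ≠ 0 := isOpen_U.mem_nhds hz
    let L : V × V → UT g := fun w =>
      if hw : w.2 ≠ 0 then ⟨nu m w, nu_mem ho hw⟩ else ⟨nu m z, nu_mem ho hz⟩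
    have hL : ∀ w (hw : w.2 ≠ 0), L w = ⟨nu m w, nu_mem ho hw⟩ := fun w hw => dif_pos hw
    have ht : Tendsto L (𝓝 z) (𝓝 ⟨nu m z, nu_mem ho hz⟩) := by
      rw [tendsto_subtype_rng]
      refine (nu_cd hm hz).continuousAt.tendsto.congr' ?_
      filter_upwards [hev] with w hw
      rw [hL w hw]
    have h3 := h1.comp z (nu_cd hm hz)
    refine (h3.fst.prodMk ((contDiffAt_snd.norm ℝ hz).smul
      (((hm'.cS.of_le one_le_two).contDiffAt.comp z h3.fst).clm_apply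
        h3.snd))).congr_of_eventuallyEq ?_
    filter_upwards [hev, ht.eventually h2] with w hw hw'
    rw [hL w hw] at hw'
    rw [dif_pos hw, dn, hw']
    rfl
  · have h0 := dn_ne hm ho hr.ne' p
    have e : (⟨nu m (dn m r p), nu_mem ho h0⟩ : UT g) = p := Subtype.ext (nu_dn hm ho hr p)
    simp only [dif_pos h0]
    rw [e, norm_dn hm ho, abs_of_pos hr]

theorem Z_dn {C : TB.Chr 3} {Φ : ℝ → UT g → UT g} (hj : m.Jac) (hl : Lk g C Φ m) (t r : ℝ)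
    (p : UT g) : m.Z t (dn m r p) = dn m r (Φ (r * t) p) := by
  rw [dn, hj.scale, hl.flow]
  rfl

variable {Γ Λ : Type} [Group Γ] [Group Λ] [MulAction Γ V] [MulAction Λ V] {ρ : Γ ≃* Λ}
  {O : Γ → V → V ≃ₗᵢ[ℝ] V} {O' : Λ → V → V ≃ₗᵢ[ℝ] V} {φ : V × V → V × V}

theorem act_dn (ha : Act m Γ O) (γ : Γ) (r : ℝ) {p q : UT g} (e : q.1 = tm γ p.1) :
    (γ • (dn m r p).1, O γ (dn m r p).1 (dn m r p).2) = dn m r q := by
  simp only [dn, e, tm, ha.der, map_smul]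

/-- The size of a tangent vector. -/
def nn (m : MF) (z ξ : V × V) : ℝ := ‖m.hor z ξ‖ + ‖m.ver z ξ‖

theorem bound_cpt (hm : m.OK) (hm' : m'.OK) (h1 : ContDiffOn ℝ 1 φ {z | z.2 ≠ 0}) {K : Set V}
    (hK : IsCompact K) : ∃ C, 0 ≤ C ∧ ∀ z ξ : V × V, z.1 ∈ K → ‖z.2‖ = 1 →
      nn m' (φ z) (fderiv ℝ φ z ξ) ≤ C * nn m z ξ := by
  have hc := hK.prod (isCompact_sphere (0 : V) 1)
  have hs : K ×ˢ Metric.sphere (0 : V) 1 ⊆ {z : V × V | z.2 ≠ 0} := fun z hz e => by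
    have := hz.2
    simp [e] at this
  have hd := h1.continuousOn_fderiv_of_isOpen isOpen_U le_rfl
  let I : V × V → (V × V →L[ℝ] V × V) := fun z =>
    ((m.R z.1).comp (.fst ℝ V V)).prod (.snd ℝ V V -
      (((m.om z.1).flip z.2).comp (m.R z.1)).comp (.fst ℝ V V))
  have hR := hm.cR.continuous.comp (continuous_fst (X := V) (Y := V))
  have hI : Continuous I := by
    refine (ContinuousLinearMap.prodₗᵢ ℝ).continuous.comp ((hR.clm_comp continuous_const).prodMk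
      (continuous_const.sub ((Continuous.clm_comp ?_ hR).clm_comp continuous_const)))
    exact (((ContinuousLinearMap.flipₗᵢ ℝ V V V).continuous.comp
      (hm.com.continuous.comp continuous_fst))).clm_apply continuous_snd
  have eI : ∀ z ξ : V × V, I z (m.hor z ξ, m.ver z ξ) = ξ := fun z ξ => by
    simp [I, MF.hor, MF.ver, hm.RS]
  obtain ⟨a, ha⟩ := hc.exists_bound_of_continuousOn
    ((((c_hor hm').comp_continuousOn h1.continuousOn).clm_comp (hd.clm_comp hI.continuousOn)).mono hs)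
  obtain ⟨b, hb⟩ := hc.exists_bound_of_continuousOn
    ((((c_ver hm').comp_continuousOn h1.continuousOn).clm_comp (hd.clm_comp hI.continuousOn)).mono hs)
  refine ⟨|a| + |b|, by positivity, fun z ξ h2 h3 => ?_⟩
  have hz : z ∈ K ×ˢ Metric.sphere (0 : V) 1 := ⟨h2, by simpa using h3⟩
  have hn : ‖(m.hor z ξ, m.ver z ξ)‖ ≤ nn m z ξ :=
    max_le (le_add_of_nonneg_right (norm_nonneg _)) (le_add_of_nonneg_left (norm_nonneg _))
  have e1 := (ContinuousLinearMap.le_of_opNorm_le _ ((ha z hz).trans (le_abs_self a))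
    (m.hor z ξ, m.ver z ξ)).trans (mul_le_mul_of_nonneg_left hn (abs_nonneg a))
  have e2 := (ContinuousLinearMap.le_of_opNorm_le _ ((hb z hz).trans (le_abs_self b))
    (m.hor z ξ, m.ver z ξ)).trans (mul_le_mul_of_nonneg_left hn (abs_nonneg b))
  simp only [ContinuousLinearMap.comp_apply, eI, Function.comp] at e1 e2
  rw [add_mul]
  exact add_le_add e1 e2

theorem nn_act (ha : Act m Γ O) (γ : Γ) (z ξ : V × V) : nn m (γ • z.1, O γ z.1 z.2)
    (fderiv ℝ (fun z : V × V => (γ • z.1, O γ z.1 z.2)) z ξ) = nn m z ξ := by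
  rw [nn, ha.hor, ha.ver, LinearIsometryEquiv.norm_map, LinearIsometryEquiv.norm_map, nn]

theorem bound (hm : m.OK) (hm' : m'.OK) (h1 : ContDiffOn ℝ 1 φ {z | z.2 ≠ 0}) (ha : Act m Γ O)
    (ha' : Act m' Λ O') (he : Eqv ρ O O' φ) : ∃ C, 0 ≤ C ∧ ∀ z ξ : V × V, ‖z.2‖ = 1 →
      nn m' (φ z) (fderiv ℝ φ z ξ) ≤ C * nn m z ξ := by
  obtain ⟨K, hK, hc⟩ := ha.cpt
  obtain ⟨C, h0, hC⟩ := bound_cpt hm hm' h1 hK
  refine ⟨C, h0, fun z ξ hz => ?_⟩
  obtain ⟨γ, hγ⟩ := hc z.1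
  have z0 : z.2 ≠ 0 := fun e => by simp [e] at hz
  have h2 : O γ z.1 z.2 ≠ 0 := fun e => z0 ((O γ z.1).map_eq_zero_iff.1 e)
  have d1 := (diffAt h1 (z := (γ • z.1, O γ z.1 z.2)) h2).hasFDerivAt.comp z
    ((ha.c1 γ).differentiable one_ne_zero z).hasFDerivAt
  have d2 := ((ha'.c1 (ρ γ)).differentiable one_ne_zero (φ z)).hasFDerivAt.comp z
    (diffAt h1 z0).hasFDerivAt
  have d3 := d2.congr_of_eventuallyEq (f₁ := φ ∘ fun z : V × V => (γ • z.1, O γ z.1 z.2)) (by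
    filter_upwards [isOpen_U.mem_nhds z0] with w hw using he γ w hw)
  have e := DFunLike.congr_fun (d1.unique d3) ξ
  have := hC (γ • z.1, O γ z.1 z.2)
    (fderiv ℝ (fun z : V × V => (γ • z.1, O γ z.1 z.2)) z ξ) hγ
    (by rw [LinearIsometryEquiv.norm_map, hz])
  simp only [ContinuousLinearMap.comp_apply] at e
  rwa [e, he γ z z0, nn_act ha, nn_act ha'] at this

end SC

open SC in
theorem sCF : SCF := by
  intro g h C C' Γ Λ _ _ _ _ Φ Ψ ρ F qg _ _ _ _ _ cj m m' O O' hm hj hm' hj' hl hl' ha ha' hM hn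
    h1 h2
  have ho : Ort g m := hl.orth
  have ho' : Ort h m' := hl'.orth
  obtain ⟨φ, c1, k0⟩ := exists_ext hm ho hm' h1
  obtain ⟨ψ, c2, k2⟩ := exists_ext hm' ho' hm h2
  have k1 : ∀ r p, r ≠ 0 → φ (dn m r p) = dn m' r (F p) := fun r p hr => by
    rcases hr.lt_or_gt with h3 | h3
    · rw [← dn_ng, k0 _ _ (neg_pos.2 h3), hn, dn_ng]
    · exact k0 r p h3
  have pos : ∀ {a : V}, a ≠ 0 → 0 < ‖a‖ := fun h => norm_pos_iff.2 h
  have nm : ∀ z : V × V, z.2 ≠ 0 → ‖(φ z).2‖ = ‖z.2‖ := fun z hz => by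
    obtain ⟨p, e⟩ := exists_dn hm ho hz
    rw [congrArg φ e, k0 _ _ (pos hz), norm_dn hm' ho', abs_norm]
  have i1 : ∀ z : V × V, z.2 ≠ 0 → ψ (φ z) = z := fun z hz => by
    obtain ⟨p, e⟩ := exists_dn hm ho hz
    rw [congrArg φ e, k0 _ _ (pos hz), k2 _ _ (pos hz), F.symm_apply_apply, ← e]
  have i2 : ∀ w : V × V, w.2 ≠ 0 → (ψ w).2 ≠ 0 ∧ φ (ψ w) = w := fun w hw => by
    obtain ⟨p, e⟩ := exists_dn hm' ho' hw
    rw [congrArg ψ e, k2 _ _ (pos hw), k0 _ _ (pos hw), F.apply_symm_apply, ← e]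
    exact ⟨dn_ne hm ho (pos hw).ne' _, rfl⟩
  have he : Eqv ρ O O' φ := fun γ z hz => by
    obtain ⟨p, e⟩ := exists_dn hm ho hz
    obtain ⟨r, hr⟩ : ∃ r, r = ‖z.2‖ := ⟨_, rfl⟩
    have r0 : 0 < r := hr ▸ pos hz
    rw [← hr] at e
    let q : UT g := ⟨tm γ p.1, (qg.rp.deck.iso γ p.1.1 p.1.2 p.1.2).trans p.2⟩
    rw [e, act_dn ha γ r (q := q) rfl, k0 _ _ r0, k0 _ _ r0, act_dn ha' _ r (cj.equi γ p q rfl)]
  have he' : Eqv ρ.symm O' O ψ := fun γ w hw => by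
    obtain ⟨h3, h4⟩ := i2 w hw
    have h5 := he (ρ.symm γ) (ψ w) h3
    rw [h4, ρ.apply_symm_apply] at h5
    rw [← h5]
    exact i1 _ fun e => h3 ((O _ _).map_eq_zero_iff.1 e)
  obtain ⟨a, a0, hA⟩ := bound hm hm' c1 ha ha' he
  obtain ⟨b, b0, hB⟩ := bound hm' hm c2 ha' ha he'
  refine ⟨φ, ⟨c1, fun r x v hr hv => ?_, nm, fun t z hz => ?_,
    fun z hz z' hz' e => by rw [← i1 z hz, e, i1 z' hz'], fun w hw => ⟨ψ w, i2 w hw⟩,
    fun t z hz e => ?_, a + b, fun z ξ hz => ?_⟩, he⟩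
  · obtain ⟨p, e⟩ := exists_dn hm ho (z := (x, v)) hv
    have e2 : (x, r • v) = dn m (r * ‖v‖) p := by
      rw [dn, mul_smul]
      exact congrArg (fun z : V × V => (z.1, r • z.2)) e
    rw [e2, congrArg φ e, k1 _ _ (mul_ne_zero hr (pos hv).ne'), k0 _ _ (pos hv), dn, dn, mul_smul]
  · obtain ⟨p, e⟩ := exists_dn hm ho hz
    obtain ⟨r, hr⟩ : ∃ r, r = ‖z.2‖ := ⟨_, rfl⟩
    have r0 : 0 < r := hr ▸ pos hz
    rw [← hr] at e
    rw [e, Z_dn hj hl, k0 _ _ r0, k0 _ _ r0, Z_dn hj' hl', cj.flow]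
  · obtain ⟨p, e2⟩ := exists_dn hm ho (z := z) fun e => by simp [e] at hz
    rw [hz] at e2
    rw [e2, Z_dn hj hl, one_mul] at e
    have h3 := hM p t 0
    rw [qg.rp.flow.zero, show (Φ t p).1.1 = p.1.1 from e, qg.rp.db.refl, sub_zero] at h3
    exact abs_eq_zero.1 h3.symm
  · have z0 : z.2 ≠ 0 := fun e => by simp [e] at hz
    have w0 : (φ z).2 ≠ 0 := norm_ne_zero_iff.1 (by rw [nm z z0, hz]; exact one_ne_zero)
    have d1 := (diffAt c2 w0).hasFDerivAt.comp z (diffAt c1 z0).hasFDerivAt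
    have d2 := (hasFDerivAt_id (𝕜 := ℝ) z).congr_of_eventuallyEq (f₁ := ψ ∘ φ) (by
      filter_upwards [isOpen_U.mem_nhds z0] with w hw using i1 w hw)
    have e : fderiv ℝ ψ (φ z) (fderiv ℝ φ z ξ) = ξ := DFunLike.congr_fun (d1.unique d2) ξ
    have h3 := hB (φ z) (fderiv ℝ φ z ξ) (by rw [nm z z0, hz])
    rw [e, i1 z z0] at h3
    exact ⟨(hA z ξ hz).trans (mul_le_mul_of_nonneg_right (le_add_of_nonneg_right b0)
      (add_nonneg (norm_nonneg _) (norm_nonneg _))), h3.trans (mul_le_mul_of_nonneg_right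
      (le_add_of_nonneg_left a0) (add_nonneg (norm_nonneg _) (norm_nonneg _)))⟩

end

end Pool.Agent.MP_3ee8cb_gt.D3
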