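import Pool.Agent.MP_3ee8cb_gt.D3.Spec

/-! The scalars of the fronts are continuous and invariant. -/

namespace Pool.Agent.MP_3ee8cb_gt.D3

open Set Filter Topology
open scoped RealInnerProductSpace

noncomputable section

namespace SC

theorem abs_det (O : V ≃ₗᵢ[ℝ] V) : |LinearMap.det (O.toLinearEquiv : V →ₗ[ℝ] V)| = 1 := by
  rw [← LinearMap.normDet_eq_abs_det]
  exact O.toLinearIsometry.normDet_eq_one

theorem det_conj (O O' : V ≃ₗᵢ[ℝ] V) : ∃ e : ℝ, |e| = 1 ∧ ∀ M M' : V →L[ℝ] V,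
    (∀ v, M' (O v) = O' (M v)) → M'.det = e * M.det := by
  refine ⟨LinearMap.det (O'.toLinearEquiv : V →ₗ[ℝ] V) *
    LinearMap.det (O.symm.toLinearEquiv : V →ₗ[ℝ] V), by rw [abs_mul, abs_det, abs_det, mul_one],
    fun M M' h => ?_⟩
  have e : (M' : V →ₗ[ℝ] V) = (O'.toLinearEquiv : V →ₗ[ℝ] V) ∘ₗ (M : V →ₗ[ℝ] V) ∘ₗ
      (O.symm.toLinearEquiv : V →ₗ[ℝ] V) := LinearMap.ext fun v => by
    have := h (O.symm v)
    rw [O.apply_symm_apply] at this
    exact this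
  rw [ContinuousLinearMap.det, e, LinearMap.det_comp, LinearMap.det_comp]
  ring

theorem isOpen_U : IsOpen {z : V × V | z.2 ≠ 0} := isOpen_ne_fun continuous_snd continuous_const

variable {m m' : MF} {φ : V × V → V × V}

theorem diffAt (h : ContDiffOn ℝ 1 φ {z | z.2 ≠ 0}) {z : V × V} (hz : z.2 ≠ 0) :
    DifferentiableAt ℝ φ z :=
  (h.contDiffAt (isOpen_U.mem_nhds hz)).differentiableAt one_ne_zero

theorem fr_der (h : ContDiffOn ℝ 1 φ {z | z.2 ≠ 0}) {z : V × V} (hz : z.2 ≠ 0) :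
    HasFDerivAt (fr φ z.1) ((fderiv ℝ φ z).comp (.inr ℝ V V)) z.2 :=
  (diffAt h hz).hasFDerivAt.comp z.2 (hasFDerivAt_prodMk_right z.1 z.2)

theorem c_hor (hm : m.OK) : Continuous m.hor :=
  (hm.cS.continuous.comp continuous_fst).clm_comp continuous_const

theorem c_ver (hm : m.OK) : Continuous m.ver := by
  refine continuous_const.add (Continuous.clm_comp ?_ continuous_const)
  exact (((ContinuousLinearMap.flipₗᵢ ℝ V V V).continuous.comp
    (hm.com.continuous.comp continuous_fst))).clm_apply continuous_snd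

theorem c_der (h : ContDiffOn ℝ 1 φ {z | z.2 ≠ 0}) :
    ContinuousOn (fun z : V × V => fderiv ℝ (fr φ z.1) z.2) {z | z.2 ≠ 0} :=
  ((h.continuousOn_fderiv_of_isOpen isOpen_U le_rfl).clm_comp continuousOn_const).congr
    fun _ hz => (fr_der h hz).fderiv

theorem c_A (hm : m.OK) (h : ContDiffOn ℝ 1 φ {z | z.2 ≠ 0}) :
    ContinuousOn (fun z : V × V => m.A (fr φ z.1) z.2) {z | z.2 ≠ 0} :=
  ((c_hor hm).comp_continuousOn h.continuousOn).clm_comp (c_der h)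

theorem c_A' (hm : m.OK) (h : ContDiffOn ℝ 1 φ {z | z.2 ≠ 0}) :
    ContinuousOn (fun z : V × V => m.A' (fr φ z.1) z.2) {z | z.2 ≠ 0} :=
  ((c_ver hm).comp_continuousOn h.continuousOn).clm_comp (c_der h)

variable {Γ Λ : Type} [Group Γ] [Group Λ] [MulAction Γ V] [MulAction Λ V] {ρ : Γ ≃* Λ}
  {O : Γ → V → V ≃ₗᵢ[ℝ] V} {O' : Λ → V → V ≃ₗᵢ[ℝ] V}

theorem der_eqv (h : ContDiffOn ℝ 1 φ {z | z.2 ≠ 0}) (ha : Act m' Λ O') (he : Eqv ρ O O' φ)
    (γ : Γ) {z : V × V} (hz : z.2 ≠ 0) (v : V) :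
    fderiv ℝ (fr φ (γ • z.1)) (O γ z.1 z.2) (O γ z.1 v) =
      fderiv ℝ (fun w : V × V => (ρ γ • w.1, O' (ρ γ) w.1 w.2)) (φ z)
        (fderiv ℝ (fr φ z.1) z.2 v) := by
  have h0 : O γ z.1 z.2 ≠ 0 := fun e => hz ((O γ z.1).map_eq_zero_iff.1 e)
  have h1 := (fr_der h (z := (γ • z.1, O γ z.1 z.2)) h0).differentiableAt.hasFDerivAt.comp z.2
    ((O γ z.1).toContinuousLinearEquiv : V →L[ℝ] V).hasFDerivAt
  have h2 := (((ha.c1 (ρ γ)).differentiable one_ne_zero) (φ z)).hasFDerivAt.comp z.2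
    (fr_der h hz).differentiableAt.hasFDerivAt
  have h3 := h2.congr_of_eventuallyEq (f₁ := fr φ (γ • z.1) ∘
      ((O γ z.1).toContinuousLinearEquiv : V →L[ℝ] V)) (by
    filter_upwards [isOpen_ne.mem_nhds hz] with a h4 using he γ (z.1, a) h4)
  exact DFunLike.congr_fun (h1.unique h3) v

end SC

open SC in
theorem sSC : SSC := by
  intro m m' φ Γ Λ _ _ _ _ ρ O O' _ hm' hc _ ha he
  refine ⟨fun c => ContinuousLinearMap.continuous_det.comp_continuousOn
    ((c_A' hm' hc.c1).add ((c_A hm' hc.c1).const_smul c)),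
    ContinuousLinearMap.continuous_det.comp_continuousOn ((c_A hm' hc.c1).add ?_),
    fun γ z hz => ?_⟩
  · exact (((ContinuousLinearMap.smulRightL ℝ V V).continuous.comp
      ((innerSL ℝ).continuous.comp continuous_snd)).continuousOn).clm_apply
        hc.c1.continuousOn.snd
  have h0 : z.2 ≠ 0 := fun e => by simp [e] at hz
  obtain ⟨e, h1, h2⟩ := det_conj (O γ z.1) (O' (ρ γ) (φ z).1)
  have e0 : fr φ (γ • z.1) (O γ z.1 z.2) = (ρ γ • (φ z).1, O' (ρ γ) (φ z).1 (φ z).2) := he γ z h0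
  have eA : ∀ v, m'.A (fr φ (γ • z.1)) (O γ z.1 z.2) (O γ z.1 v) =
      O' (ρ γ) (φ z).1 (m'.A (fr φ z.1) z.2 v) := fun v => by
    rw [MF.A, ContinuousLinearMap.comp_apply, der_eqv hc.c1 ha he γ h0, e0]
    exact ha.hor _ _ _
  have eA' : ∀ v, m'.A' (fr φ (γ • z.1)) (O γ z.1 z.2) (O γ z.1 v) =
      O' (ρ γ) (φ z).1 (m'.A' (fr φ z.1) z.2 v) := fun v => by
    rw [MF.A', ContinuousLinearMap.comp_apply, der_eqv hc.c1 ha he γ h0, e0]
    exact ha.ver _ _ _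
  refine ⟨e, h1, fun c => h2 _ _ fun v => ?_, h2 _ _ fun v => ?_⟩
  · simp only [add_apply, smul_apply, eA, eA', map_add,
      map_smul]
  · simp only [add_apply, ContinuousLinearMap.smulRight_apply, eA, e0,
      map_add, map_smul, innerSL_apply_apply, LinearIsometryEquiv.inner_map_map]
    rfl

end

end Pool.Agent.MP_3ee8cb_gt.D3
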